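import Pool.Agent.Lib.MP_39e620_al.FGlob
import Pool.Agent.Lib.MP_39e620_al.FCyc
import Pool.Agent.Lib.MP_39e620_al.FS4
import Pool.Agent.Lib.MP_39e620_al.H66Prim

set_option autoImplicit false

namespace Pool.Agent.Results.MP_39e620_al.NoSeventeen

/-- Every generator of `⟨x⟩` is conjugate to `x` or to `x ^ m`, for some `m` depending on `x`. -/
def SemiRational (G : Type) [Group G] : Prop :=
  ∀ x : G, ∃ m : ℤ, ∀ j : ℤ, Int.gcd j (orderOf x) = 1 →
    IsConj (x ^ j) x ∨ IsConj (x ^ j) (x ^ m)

open Pool.Agent.Lib.MP_39e620_al.Full in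
/-- The order of a finite solvable semi-rational group is not divisible by `17`. -/
theorem result (G : Type) [Group G] [Finite G] [Group.IsSolvable G] (h : SemiRational G) :
    ¬ 17 ∣ Nat.card G := by
  refine no_seventeen_of (fun H I G K W _ _ _ _ _ _ _ _ _ _ _ _ _ _ _ _ _ _ hq hG M hP => ?_) G ?_
  · rcases prim_class G K W hG hP with h | h | h
    · exact M.not_goodPair hq h
    · exact cyc_false M hq hP.semi h
    · exact s4_false M hq h
  · intro x
    obtain ⟨m, hm⟩ := h x
    refine ⟨x ^ m, fun j hj => ?_⟩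
    have := hm j (by rw [Int.gcd_natCast_natCast]; exact hj)
    rwa [zpow_natCast] at this

end Pool.Agent.Results.MP_39e620_al.NoSeventeen
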